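import Mathlib
import Pool.Agent.Lib.MP_f0992b_nt.Main

set_option autoImplicit false

open Finset Polynomial
open Pool.Agent.Lib.MP_f0992b_nt

namespace Pool.Agent.Results.MP_f0992b_nt.AbelianCase

/-- `s` is a conjugate set: the set of all complex zeros of a monic irreducible polynomial with
integer coefficients all of whose zeros are real. -/
def IsConjugateSet (s : Set ℂ) : Prop :=
  ∃ P : ℤ[X], P.Monic ∧ Irreducible P ∧ (∀ z : ℂ, aeval z P = 0 → z.im = 0) ∧
    s = {z : ℂ | aeval z P = 0}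

/-- `z` is a cyclotomic integer: an integral linear combination of roots of unity. -/
def IsCyclotomicInteger (z : ℂ) : Prop :=
  z ∈ AddSubgroup.closure {ζ : ℂ | ∃ n : ℕ, 0 < n ∧ ζ ^ n = 1}

/-- The conjugate sets contained in `[a, a + 4]` that consist of cyclotomic integers. -/
def cyclotomicSets (a : ℝ) : Set (Set ℂ) :=
  {s | IsConjugateSet s ∧ (∀ z ∈ s, a ≤ z.re ∧ z.re ≤ a + 4) ∧ ∀ z ∈ s, IsCyclotomicInteger z}

/-- Canonical primitive root. -/
noncomputable def zt (N : ℕ) : ℂ := Complex.exp (2 * Real.pi * Complex.I / N)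

lemma zt_prim {N : ℕ} (hN : 0 < N) : IsPrimitiveRoot (zt N) N :=
  Complex.isPrimitiveRoot_exp N hN.ne'

lemma zt_mul {N M : ℕ} (hN : 0 < N) (hM : 0 < M) : (zt (N * M)) ^ M = zt N := by
  unfold zt
  rw [← Complex.exp_nat_mul]
  congr 1
  have h1 : (N : ℂ) ≠ 0 := by exact_mod_cast hN.ne'
  have h2 : (M : ℂ) ≠ 0 := by exact_mod_cast hM.ne'
  push_cast
  field_simp

/-- A cyclotomic integer is the value of an integer polynomial at a root of unity. -/
lemma exists_poly {z : ℂ} (hz : IsCyclotomicInteger z) :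
    ∃ N : ℕ, 0 < N ∧ ∃ f : ℤ[X], aeval (zt N) f = z := by
  unfold IsCyclotomicInteger at hz
  induction hz using AddSubgroup.closure_induction with
  | mem x hx =>
    obtain ⟨n, hn, hxn⟩ := hx
    refine ⟨n, hn, ?_⟩
    have : NeZero n := ⟨hn.ne'⟩
    obtain ⟨i, _, hi⟩ := (zt_prim hn).eq_pow_of_pow_eq_one hxn
    exact ⟨X ^ i, by rw [map_pow, aeval_X, hi]⟩
  | zero => exact ⟨1, one_pos, 0, by simp⟩
  | add x y _ _ hx hy =>
    obtain ⟨N, hN, f, hf⟩ := hx
    obtain ⟨M, hM, g, hg⟩ := hy
    refine ⟨N * M, Nat.mul_pos hN hM, f.comp (X ^ M) + g.comp (X ^ N), ?_⟩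
    rw [map_add, aeval_comp_pow, aeval_comp_pow, zt_mul hN hM, mul_comm N M, zt_mul hM hN, hf, hg]
  | neg x _ hx =>
    obtain ⟨N, hN, f, hf⟩ := hx
    exact ⟨N, hN, -f, by rw [map_neg, hf]⟩

/-- Values at primitive roots are again roots. -/
lemma value_is_root {N : ℕ} (hN : 0 < N) {f P : ℤ[X]} (hP : aeval (aeval (zt N) f) P = 0)
    {z : ℂ} (hz : IsPrimitiveRoot z N) : aeval (aeval z f) P = 0 := by
  have h1 : aeval (zt N) (P.comp f) = 0 := by rw [aeval_comp]; exact hP
  have h2 := aeval_eq_zero_of_primitive hN (zt_prim hN) hz h1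
  rwa [aeval_comp] at h2

/-- There is a number field with a primitive root of unity of order `N`. -/
lemma exists_field {N : ℕ} (hN : 0 < N) :
    ∃ (K : Type) (_ : Field K) (_ : NumberField K) (ζ : K), IsPrimitiveRoot ζ N := by
  have hp : IsPrimitiveRoot (zt N) N := zt_prim hN
  have hint : IsIntegral ℚ (zt N) := (hp.isIntegral hN).tower_top
  set K := IntermediateField.adjoin ℚ {zt N} with hK
  have hfd : FiniteDimensional ℚ K := IntermediateField.adjoin.finiteDimensional hint
  have hmem : zt N ∈ K := IntermediateField.mem_adjoin_simple_self ℚ _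
  have hnf : NumberField K := by constructor
  refine ⟨K, inferInstance, hnf, ⟨_, hmem⟩, ?_⟩
  exact IsPrimitiveRoot.of_map_of_injective (f := K.val) (by simpa using hp) K.val.injective

/-- All the conjugates of `f(ζ)` are values of `f` at primitive roots. -/
lemma root_is_value {N : ℕ} (hN : 0 < N) {f P : ℤ[X]} (hmon : P.Monic) (hirr : Irreducible P)
    (hP : aeval (aeval (zt N) f) P = 0) {β : ℂ} (hβ : aeval β P = 0) :
    ∃ z : ℂ, IsPrimitiveRoot z N ∧ aeval z f = β := by
  obtain ⟨K, _, _, ζ, hζp⟩ := exists_field hN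
  set x : K := aeval ζ f with hx
  have hφ : ∀ φ : K →+* ℂ,
      IsPrimitiveRoot (φ ζ) N ∧ φ x = aeval (φ ζ) f := by
    intro φ
    refine ⟨hζp.map_of_injective φ.injective, ?_⟩
    rw [hx, aeval_def, aeval_def, hom_eval₂]
    congr 1
    exact RingHom.ext_int _ _
  obtain ⟨φ₀⟩ : Nonempty (K →+* ℂ) := inferInstance
  have hxP : aeval x P = 0 := by
    apply φ₀.injective
    rw [map_zero]
    have h1 : φ₀ (aeval x P) = aeval (φ₀ x) P := by
      rw [aeval_def, aeval_def, hom_eval₂]
      congr 1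
      exact RingHom.ext_int _ _
    rw [h1, (hφ φ₀).2]
    exact value_is_root hN hP (hφ φ₀).1
  have hirrQ : Irreducible (P.map (Int.castRingHom ℚ)) :=
    (IsPrimitive.Int.irreducible_iff_irreducible_map_cast hmon.isPrimitive).mp hirr
  have hminpoly : P.map (Int.castRingHom ℚ) = minpoly ℚ x := by
    apply minpoly.eq_of_irreducible_of_monic hirrQ
    · rw [aeval_def, eval₂_map, ← hxP, aeval_def]
      congr 1
      exact RingHom.ext_int _ _
    · exact hmon.map _
  have hroot : β ∈ (minpoly ℚ x).rootSet ℂ := by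
    rw [mem_rootSet, ← hminpoly]
    refine ⟨(hmon.map _).ne_zero, ?_⟩
    rw [aeval_def, eval₂_map, ← hβ, aeval_def]
    congr 1
  rw [← NumberField.Embeddings.range_eval_eq_rootSet_minpoly K ℂ x] at hroot
  obtain ⟨φ, hφβ⟩ := hroot
  exact ⟨φ ζ, (hφ φ).1, by rw [← (hφ φ).2]; exact hφβ⟩

/-- The degree is the number of values. -/
lemma natDegree_le_card {N : ℕ} (hN : 0 < N) {f P : ℤ[X]} (hmon : P.Monic)
    (hirr : Irreducible P) (hP : aeval (aeval (zt N) f) P = 0) :
    P.natDegree ≤ (V N f).card := by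
  classical
  have hirrQ : Irreducible (P.map (Int.castRingHom ℚ)) :=
    (IsPrimitive.Int.irreducible_iff_irreducible_map_cast hmon.isPrimitive).mp hirr
  have hsep : (P.map (Int.castRingHom ℚ)).Separable := hirrQ.separable
  have hcard := card_rootSet_eq_natDegree (K := ℂ) hsep (IsAlgClosed.splits _)
  have hdeg : (P.map (Int.castRingHom ℚ)).natDegree = P.natDegree := hmon.natDegree_map _
  rw [← hdeg, ← hcard]
  have hsub : ((P.map (Int.castRingHom ℚ)).rootSet ℂ).toFinset ⊆ V N f := by
    intro β hβ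
    rw [Set.mem_toFinset, mem_rootSet] at hβ
    have hβ2 : aeval β P = 0 := by
      rw [← hβ.2, aeval_def, aeval_def, eval₂_map]
      congr 1
    obtain ⟨z, hz, hzβ⟩ := root_is_value hN hmon hirr hP hβ2
    unfold V
    rw [Finset.mem_image]
    exact ⟨z, by rw [mem_primitiveRoots hN]; exact hz, hzβ⟩
  have := Finset.card_le_card hsub
  rwa [Set.toFinset_card] at this

/-- Finiteness for non-integral `a`. -/
theorem finite_of_not_int {a : ℝ} (ha : ∀ m : ℤ, (m : ℝ) ≠ a) : (cyclotomicSets a).Finite := by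
  classical
  have hc : a + 2 ≠ round (a + 2) := by
    intro h
    apply ha (round (a + 2) - 2)
    push_cast
    linarith
  obtain ⟨D, hD⟩ := card_bound (a + 2) hc
  set B : ℝ := |a| + 4 with hB
  set C : ℝ := max B 1 ^ D * D.choose (D / 2) with hC
  have hU : (Set.Icc (-⌈C⌉) ⌈C⌉ : Set ℤ).Finite := Set.finite_Icc _ _
  have hfin := bUnion_roots_finite (Int.castRingHom ℂ) D hU
  apply (hfin.finite_subsets).subset
  rintro s ⟨⟨P, hmon, hirr, hreal, hs⟩, hint, hcyc⟩
  rw [Set.mem_ofPred_eq]
  have hdegpos : P.natDegree ≠ 0 := by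
    intro h0
    have h1 := hmon.natDegree_eq_zero.mp h0
    exact hirr.not_isUnit (by rw [h1]; exact isUnit_one)
  have hroots : ∀ z : ℂ, aeval z P = 0 → ‖z‖ ≤ B := by
    intro z hz
    have h1 := hreal z hz
    have h2 := hint z (by rw [hs]; exact hz)
    have h3 : z = ((z.re : ℝ) : ℂ) := Complex.ext (by simp) (by simp [h1])
    rw [h3, Complex.norm_real, Real.norm_eq_abs, hB]
    have h4 := neg_abs_le a
    have h5 := le_abs_self a
    rw [abs_le]
    constructor <;> linarith
  have hdeg : P.natDegree ≤ D := by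
    have hex : ∃ α : ℂ, aeval α P = 0 := by
      have hdeg' : (P.map (Int.castRingHom ℂ)).degree ≠ 0 := by
        rw [degree_eq_natDegree (hmon.map _).ne_zero, hmon.natDegree_map]
        exact_mod_cast hdegpos
      obtain ⟨α, hα⟩ := IsAlgClosed.exists_root _ hdeg'
      refine ⟨α, ?_⟩
      rw [IsRoot.def, eval_map] at hα
      rw [aeval_def, ← hα]
      congr 1
    obtain ⟨α, hα⟩ := hex
    obtain ⟨N, hN, f, hf⟩ := exists_poly (hcyc α (by rw [hs]; exact hα))
    rw [← hf] at hα
    have h1 := natDegree_le_card hN hmon hirr hα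
    have h2 : Good N f (a + 2) := by
      intro z hz
      rw [mem_primitiveRoots hN] at hz
      have h3 := value_is_root hN hα hz
      have h4 := hreal _ h3
      have h5 := hint (aeval z f) (by rw [hs]; exact h3)
      refine ⟨h4, ?_⟩
      rw [abs_le]
      constructor <;> linarith [h5.1, h5.2]
    have h3 := hD N hN f h2
    omega
  intro z hz
  rw [hs, Set.mem_ofPred_eq] at hz
  rw [Set.mem_iUnion]
  refine ⟨P, ?_⟩
  rw [Set.mem_iUnion]
  refine ⟨⟨hdeg, ?_⟩, ?_⟩
  · intro i
    have h1 := coeff_bdd_of_roots_le (B := B) (d := D) (Int.castRingHom ℂ) hmon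
      (IsAlgClosed.splits _) hdeg (by
        intro w hw
        rw [mem_roots (hmon.map _).ne_zero, IsRoot.def, eval_map] at hw
        apply hroots w
        rw [aeval_def, ← hw]
        congr 1) i
    rw [coeff_map, eq_intCast, Complex.norm_intCast, ← hC] at h1
    have h2 := abs_le.mp (h1.trans (Int.le_ceil C))
    rw [Set.mem_Icc]
    constructor
    · have := h2.1
      exact_mod_cast this
    · have := h2.2
      exact_mod_cast this
  · rw [Finset.mem_coe, Multiset.mem_toFinset, mem_roots (hmon.map _).ne_zero, IsRoot.def,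
      eval_map, ← hz, aeval_def]
    congr 1

/-- The numbers `2 cos (2 π / n) + m + 2` as values of polynomials. -/
noncomputable def fm (m : ℤ) (n : ℕ) : ℤ[X] := X + X ^ (n - 1) + C (m + 2)

lemma fm_value {m : ℤ} {n : ℕ} (hn : 0 < n) {z : ℂ} (hz : IsPrimitiveRoot z n) :
    aeval z (fm m n) = ((2 * z.re + m + 2 : ℝ) : ℂ) := by
  unfold fm
  have h1 : ‖z‖ = 1 := hz.norm'_eq_one hn.ne'
  have hconj : (starRingEnd ℂ) z = z ^ (n - 1) := by
    have h2 : z * z ^ (n - 1) = 1 := by
      rw [← pow_succ', Nat.sub_add_cancel hn, hz.pow_eq_one]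
    have h3 : z * (starRingEnd ℂ) z = 1 := by
      rw [Complex.mul_conj, Complex.normSq_eq_norm_sq, h1]; simp
    exact mul_left_cancel₀ (hz.ne_zero hn.ne') (h3.trans h2.symm)
  rw [map_add, map_add, map_pow, aeval_X, aeval_C, ← hconj, Complex.add_conj]
  push_cast
  simp
  ring

lemma fm_cyclotomic {m : ℤ} {n : ℕ} (hn : 0 < n) {z : ℂ} (hz : IsPrimitiveRoot z n) :
    IsCyclotomicInteger (aeval z (fm m n)) := by
  unfold IsCyclotomicInteger fm
  rw [map_add, map_add, map_pow, aeval_X, aeval_C]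
  apply add_mem (add_mem _ _)
  · have h1 : (algebraMap ℤ ℂ) (m + 2) = (m + 2) • (1 : ℂ) := by simp
    rw [h1]
    apply zsmul_mem
    exact AddSubgroup.subset_closure ⟨1, one_pos, by simp⟩
  · exact AddSubgroup.subset_closure ⟨n, hn, hz.pow_eq_one⟩
  · exact AddSubgroup.subset_closure ⟨n, hn, by
      rw [← pow_mul, mul_comm, pow_mul, hz.pow_eq_one, one_pow]⟩

/-- For integral `a` there are infinitely many such conjugate sets. -/
theorem infinite_of_int (m : ℤ) : (cyclotomicSets (m : ℝ)).Infinite := by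
  classical
  set θ : ℕ → ℂ := fun n => aeval (zt (n + 2)) (fm m (n + 2)) with hθ
  have hint : ∀ n, IsIntegral ℤ (θ n) := by
    intro n
    have h1 : IsIntegral ℤ (zt (n + 2)) := (zt_prim (by omega)).isIntegral (by omega)
    rw [hθ]
    exact IsIntegral.of_mem_of_fg (Algebra.adjoin ℤ {zt (n + 2)}) h1.fg_adjoin_singleton _
      (aeval_mem_adjoin_singleton ℤ _)
  have hmem : ∀ n, {z : ℂ | aeval z (minpoly ℤ (θ n)) = 0} ∈ cyclotomicSets (m : ℝ) := by
    intro n
    have hn2 : 0 < n + 2 := by omega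
    have hmon := minpoly.monic (hint n)
    have hirr := minpoly.irreducible (hint n)
    have hroot : aeval (aeval (zt (n + 2)) (fm m (n + 2))) (minpoly ℤ (θ n)) = 0 :=
      minpoly.aeval ℤ (θ n)
    have hval : ∀ z : ℂ, aeval z (minpoly ℤ (θ n)) = 0 →
        ∃ w : ℂ, IsPrimitiveRoot w (n + 2) ∧ aeval w (fm m (n + 2)) = z := fun z hz =>
      root_is_value hn2 hmon hirr hroot hz
    refine ⟨⟨minpoly ℤ (θ n), hmon, hirr, ?_, rfl⟩, ?_, ?_⟩
    · intro z hz
      obtain ⟨w, hw, rfl⟩ := hval z hz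
      rw [fm_value hn2 hw, Complex.ofReal_im]
    · intro z hz
      obtain ⟨w, hw, rfl⟩ := hval z hz
      have h1 : ‖w‖ = 1 := hw.norm'_eq_one (by omega)
      have h2 := abs_le.mp (Complex.abs_re_le_norm w)
      rw [h1] at h2
      rw [fm_value hn2 hw, Complex.ofReal_re]
      constructor <;> linarith [h2.1, h2.2]
    · intro z hz
      obtain ⟨w, hw, rfl⟩ := hval z hz
      exact fm_cyclotomic hn2 hw
  have hfinmem : ∀ s ∈ cyclotomicSets (m : ℝ), s.Finite := by
    rintro s ⟨⟨P, hmon, _, _, rfl⟩, _, _⟩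
    have h1 : {z : ℂ | aeval z P = 0} ⊆ ((P.map (Int.castRingHom ℂ)).roots.toFinset : Set ℂ) := by
      intro z hz
      rw [Set.mem_ofPred_eq] at hz
      rw [Finset.mem_coe, Multiset.mem_toFinset, mem_roots (hmon.map _).ne_zero, IsRoot.def,
        eval_map, ← hz, aeval_def]
      congr 1
    exact (Finset.finite_toSet _).subset h1
  intro hfin
  have hun : (⋃ s ∈ cyclotomicSets (m : ℝ), s).Finite := Set.Finite.biUnion hfin hfinmem
  have hinj : Function.Injective θ := by
    intro i j hij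
    simp only [hθ] at hij
    rw [fm_value (by omega) (zt_prim (by omega)), fm_value (by omega) (zt_prim (by omega))] at hij
    have h1 : (zt (i + 2)).re = (zt (j + 2)).re := by
      have := Complex.ofReal_injective hij
      linarith
    have hre : ∀ k : ℕ, (zt (k + 2)).re = Real.cos (2 * Real.pi / (k + 2 : ℕ)) := by
      intro k
      unfold zt
      have h2 : (2 * Real.pi * Complex.I / ((k + 2 : ℕ) : ℂ)) =
          ((2 * Real.pi / (k + 2 : ℕ) : ℝ) : ℂ) * Complex.I := by
        push_cast; ring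
      rw [h2, Complex.exp_ofReal_mul_I_re]
    rw [hre, hre] at h1
    have hpi := Real.pi_pos
    have hrange : ∀ k : ℕ, 2 * Real.pi / (k + 2 : ℕ) ∈ Set.Icc 0 Real.pi := by
      intro k
      have hk : (2 : ℝ) ≤ (k + 2 : ℕ) := by push_cast; linarith [Nat.cast_nonneg (α := ℝ) k]
      constructor
      · positivity
      · rw [div_le_iff₀ (by linarith)]
        nlinarith
    have h3 := Real.injOn_cos (hrange i) (hrange j) h1
    have h4 : ((i + 2 : ℕ) : ℝ) = ((j + 2 : ℕ) : ℝ) := by
      have hi0 : ((i + 2 : ℕ) : ℝ) ≠ 0 := by positivity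
      have hj0 : ((j + 2 : ℕ) : ℝ) ≠ 0 := by positivity
      rw [div_eq_div_iff hi0 hj0] at h3
      have h5 : (2 * Real.pi) ≠ 0 := by positivity
      exact (mul_left_cancel₀ h5 h3).symm
    have h5 : i + 2 = j + 2 := by exact_mod_cast h4
    omega
  have hinf := Set.infinite_range_of_injective hinj
  apply hinf
  apply hun.subset
  rintro _ ⟨n, rfl⟩
  rw [Set.mem_iUnion₂]
  exact ⟨_, hmem n, minpoly.aeval ℤ (θ n)⟩

/-- Among the conjugate sets of cyclotomic integers, `[a, a + 4]` contains infinitely many if and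
only if `a` is an integer. -/
theorem result : {a : ℝ | (cyclotomicSets a).Infinite} = Set.range (fun m : ℤ => (m : ℝ)) := by
  ext a
  rw [Set.mem_ofPred_eq, Set.mem_range]
  constructor
  · intro h
    by_contra hne
    push Not at hne
    exact h (finite_of_not_int hne)
  · rintro ⟨m, rfl⟩
    exact infinite_of_int m

end Pool.Agent.Results.MP_f0992b_nt.AbelianCase
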