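import Mathlib
import Pool.Agent.Lib.MP_f0992b_nt.CountFam

set_option autoImplicit false

open Finset Polynomial
open Pool.Agent.Lib.MP_f0992b_nt

namespace Pool.Agent.Results.MP_f0992b_nt.CountingBound

/-- `s` is a conjugate set: the set of all complex zeros of a monic irreducible polynomial with
integer coefficients all of whose zeros are real. -/
def IsConjugateSet (s : Set ℂ) : Prop :=
  ∃ P : ℤ[X], P.Monic ∧ Irreducible P ∧ (∀ z : ℂ, aeval z P = 0 → z.im = 0) ∧
    s = {z : ℂ | aeval z P = 0}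

/-- The conjugate sets contained in `[a, b]` that have at most `D` elements. -/
def smallConjSets (a b : ℝ) (D : ℕ) : Set (Set ℂ) :=
  {s | IsConjugateSet s ∧ (∀ z ∈ s, a ≤ z.re ∧ z.re ≤ b) ∧ s.ncard ≤ D}

/-- For every real `a` and every `D ≥ 1`, even the slightly longer interval
`[a, a + 4 + 1 / (16 D ^ 2)]` contains only finitely many, namely at most `320 D (1 + log D)`,
conjugate sets with at most `D` elements. -/
theorem result (a : ℝ) (D : ℕ) (hD : 1 ≤ D) :
    (smallConjSets a (a + 4 + 1 / (16 * (D : ℝ) ^ 2)) D).Finite ∧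
      ((smallConjSets a (a + 4 + 1 / (16 * (D : ℝ) ^ 2)) D).ncard : ℝ) ≤
        320 * D * (1 + Real.log D) := by
  classical
  apply finite_of_bounded
  intro t ht
  have hD0 : (0:ℝ) < D := by
    have : (1:ℝ) ≤ D := by exact_mod_cast hD
    linarith
  set κ : ℝ := 1 + 1 / (64 * (D:ℝ) ^ 2) with hκ
  have hpos : 0 < 1 / (64 * (D:ℝ) ^ 2) := by positivity
  have h16 : 1 / (16 * (D:ℝ) ^ 2) = 4 * (1 / (64 * (D:ℝ) ^ 2)) := by
    field_simp
    norm_num
  have hex : ∀ s ∈ t, ∃ P : ℤ[X], RealIrr (a + 2 * κ) κ P ∧ (Rt P : Set ℂ) = s := by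
    intro s hs
    obtain ⟨⟨P, hmon, hirr, hreal, hsP⟩, hint, _⟩ := ht hs
    refine ⟨P, ⟨hmon, hirr, hreal, ?_⟩, ?_⟩
    · intro z hz
      have h1 := hint z (by rw [hsP]; exact hz)
      rw [abs_le]
      constructor <;> linarith [h1.1, h1.2]
    · ext z
      rw [Finset.mem_coe, mem_Rt hmon, hsP, Set.mem_ofPred_eq]
  choose! f hf using hex
  have hinj : Set.InjOn f (t : Set (Set ℂ)) := by
    intro s hs s' hs' h
    rw [← (hf s hs).2, ← (hf s' hs').2, h]
  rw [← Finset.card_image_of_injOn hinj]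
  apply card_poly_le (c := a + 2 * κ) (κ := κ) hD (by linarith) (by linarith)
  · intro P hP
    rw [Finset.mem_image] at hP
    obtain ⟨s, hs, rfl⟩ := hP
    exact (hf s hs).1
  · intro P hP
    rw [Finset.mem_image] at hP
    obtain ⟨s, hs, rfl⟩ := hP
    have h1 := (ht hs).2.2
    rw [← (hf s hs).2, Set.ncard_coe_finset] at h1
    exact h1

end Pool.Agent.Results.MP_f0992b_nt.CountingBound
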