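import Mathlib
import Pool.Agent.Lib.MP_f0992b_nt.GapBound

set_option autoImplicit false

open Finset Polynomial
open Pool.Agent.Lib.MP_f0992b_nt

namespace Pool.Agent.Results.MP_f0992b_nt.EndpointGap

/-- `s` is a conjugate set: the set of all complex zeros of a monic irreducible polynomial with
integer coefficients all of whose zeros are real. -/
def IsConjugateSet (s : Set ℂ) : Prop :=
  ∃ P : ℤ[X], P.Monic ∧ Irreducible P ∧ (∀ z : ℂ, aeval z P = 0 → z.im = 0) ∧
    s = {z : ℂ | aeval z P = 0}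

/-- The conjugate sets contained in `[a, a + 4]` all of whose elements have distance at least `ε`
from both endpoints. -/
def innerSets (a ε : ℝ) : Set (Set ℂ) :=
  {s | IsConjugateSet s ∧ ∀ z ∈ s, a + ε ≤ z.re ∧ z.re ≤ a + 4 - ε}

/-- At most `1200 (1 + log (1 / ε)) / √ε` conjugate sets in `[a, a + 4]` stay at distance at
least `ε` from both endpoints. -/
theorem result (a ε : ℝ) (hε : 0 < ε) (hε1 : ε ≤ 1) :
    (innerSets a ε).Finite ∧
      ((innerSets a ε).ncard : ℝ) ≤ 1200 * (1 + Real.log (1 / ε)) / Real.sqrt ε := by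
  classical
  apply finite_of_bounded
  intro t ht
  have hex : ∀ s ∈ t, ∃ P : ℤ[X], RealIrr (a + 2) (1 - ε / 2) P ∧ (Rt P : Set ℂ) = s := by
    intro s hs
    obtain ⟨⟨P, hmon, hirr, hreal, hsP⟩, hint⟩ := ht hs
    refine ⟨P, ⟨hmon, hirr, hreal, ?_⟩, ?_⟩
    · intro z hz
      have h1 := hint z (by rw [hsP]; exact hz)
      rw [abs_le]
      constructor <;> linarith [h1.1, h1.2]
    · ext z
      rw [Finset.mem_coe, mem_Rt hmon, hsP, Set.mem_ofPred_eq]
  choose! f hf using hex
  have hinj : Set.InjOn f (t : Set (Set ℂ)) := by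
    intro s hs s' hs' h
    rw [← (hf s hs).2, ← (hf s' hs').2, h]
  rw [← Finset.card_image_of_injOn hinj]
  apply card_gap_le (c := a + 2) hε hε1
  intro P hP
  rw [Finset.mem_image] at hP
  obtain ⟨s, hs, rfl⟩ := hP
  exact (hf s hs).1

end Pool.Agent.Results.MP_f0992b_nt.EndpointGap
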