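import Mathlib

set_option autoImplicit false

open Polynomial

namespace Pool.Agent.Results.MP_f0992b_nt.QuarterPoints

/-- `s` is a conjugate set: the set of all complex zeros of a monic irreducible polynomial with
integer coefficients all of whose zeros are real. -/
def IsConjugateSet (s : Set ℂ) : Prop :=
  ∃ P : ℤ[X], P.Monic ∧ Irreducible P ∧ (∀ z : ℂ, aeval z P = 0 → z.im = 0) ∧
    s = {z : ℂ | aeval z P = 0}

/-- The conjugate sets contained in `[a, a + 4]`. -/
def conjSets (a : ℝ) : Set (Set ℂ) :=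
  {s | IsConjugateSet s ∧ ∀ z ∈ s, a ≤ z.re ∧ z.re ≤ a + 4}

/-- The set `S` of the problem. -/
def S : Set ℝ := {a : ℝ | (conjSets a).Infinite}

lemma minpoly_dvd {P g : ℤ[X]} (hmon : P.Monic) (hirr : Irreducible P) {α : ℂ}
    (hα : aeval α P = 0) (hg : aeval α g = 0) : P ∣ g := by
  have hint : IsIntegral ℤ α := ⟨P, hmon, by rw [← hα, aeval_def]⟩
  have h1 : minpoly ℤ α ∣ P := minpoly.isIntegrallyClosed_dvd hint hα
  have h2 : minpoly ℤ α ∣ g := minpoly.isIntegrallyClosed_dvd hint hg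
  obtain ⟨u, hu⟩ := h1
  rcases hirr.isUnit_or_isUnit hu with h | h
  · exact absurd h (minpoly.irreducible hint).not_isUnit
  · have h3 : Associated (minpoly ℤ α) P := by
      rw [hu]
      exact associated_mul_unit_right _ _ h
    exact h3.symm.dvd.trans h2

/-- Zeros of the minimal polynomial of `f(α)` are values of `f` at conjugates of `α`. -/
lemma exists_conj {P Q f : ℤ[X]} (hmon : P.Monic) (_hirr : Irreducible P) {α : ℂ}
    (hα : aeval α P = 0) (hQmon : Q.Monic) (hQirr : Irreducible Q)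
    (hQ : aeval (aeval α f) Q = 0) {w : ℂ} (hw : aeval w Q = 0) :
    ∃ z : ℂ, aeval z P = 0 ∧ aeval z f = w := by
  have hint : IsIntegral ℚ α := by
    have h1 : IsIntegral ℤ α := ⟨P, hmon, by rw [← hα, aeval_def]⟩
    exact h1.tower_top
  set K := IntermediateField.adjoin ℚ {α} with hK
  have hfd : FiniteDimensional ℚ K := IntermediateField.adjoin.finiteDimensional hint
  have hmem : α ∈ K := IntermediateField.mem_adjoin_simple_self ℚ _
  have hnf : NumberField K := by constructor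
  set a : K := ⟨α, hmem⟩ with ha
  have hval : ∀ (φ : K →+* ℂ) (x : K) (g : ℤ[X]), φ (aeval x g) = aeval (φ x) g := by
    intro φ x g
    rw [aeval_def, aeval_def, hom_eval₂]
    congr 1
    exact RingHom.ext_int _ _
  have haα : K.val.toRingHom a = α := rfl
  have hxP : aeval a P = 0 := by
    apply K.val.toRingHom.injective
    rw [map_zero, hval, haα, hα]
  have hxQ : aeval (aeval a f) Q = 0 := by
    apply K.val.toRingHom.injective
    rw [map_zero, hval, hval, haα, hQ]
  have hirrQ : Irreducible (Q.map (Int.castRingHom ℚ)) :=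
    (IsPrimitive.Int.irreducible_iff_irreducible_map_cast hQmon.isPrimitive).mp hQirr
  have hminpoly : Q.map (Int.castRingHom ℚ) = minpoly ℚ (aeval a f) := by
    apply minpoly.eq_of_irreducible_of_monic hirrQ
    · rw [aeval_def, eval₂_map, ← hxQ, aeval_def]
      congr 1
    · exact hQmon.map _
  have hroot : w ∈ (minpoly ℚ (aeval a f)).rootSet ℂ := by
    rw [mem_rootSet, ← hminpoly]
    refine ⟨(hQmon.map _).ne_zero, ?_⟩
    rw [aeval_def, eval₂_map, ← hw, aeval_def]
    congr 1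
  rw [← NumberField.Embeddings.range_eval_eq_rootSet_minpoly K ℂ (aeval a f)] at hroot
  obtain ⟨φ, hφ⟩ := hroot
  refine ⟨φ a, ?_, ?_⟩
  · rw [← hval, hxP, map_zero]
  · rw [← hval]; exact hφ

lemma finite_of_isConjugateSet {s : Set ℂ} (hs : IsConjugateSet s) : s.Finite := by
  classical
  obtain ⟨P, hmon, _, _, rfl⟩ := hs
  have h1 : {z : ℂ | aeval z P = 0} ⊆ ((P.map (Int.castRingHom ℂ)).roots.toFinset : Set ℂ) := by
    intro z hz
    rw [Set.mem_ofPred_eq] at hz
    rw [Finset.mem_coe, Multiset.mem_toFinset, mem_roots (hmon.map _).ne_zero, IsRoot.def,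
      eval_map, ← hz, aeval_def]
    congr 1
  exact (Finset.finite_toSet _).subset h1

lemma nonempty_of_isConjugateSet {s : Set ℂ} (hs : IsConjugateSet s) : s.Nonempty := by
  obtain ⟨P, hmon, hirr, _, rfl⟩ := hs
  have hdegpos : P.natDegree ≠ 0 := by
    intro h0
    have h1 := hmon.natDegree_eq_zero.mp h0
    exact hirr.not_isUnit (by rw [h1]; exact isUnit_one)
  have hdeg' : (P.map (Int.castRingHom ℂ)).degree ≠ 0 := by
    rw [degree_eq_natDegree (hmon.map _).ne_zero, hmon.natDegree_map]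
    exact_mod_cast hdegpos
  obtain ⟨α, hα⟩ := IsAlgClosed.exists_root _ hdeg'
  refine ⟨α, ?_⟩
  rw [Set.mem_ofPred_eq]
  rw [IsRoot.def, eval_map] at hα
  rw [aeval_def, ← hα]
  congr 1

/-- Transfer principle. If an integer polynomial `f` is such that, for complex `z`, the value
`f(z)` is a point of the real interval `[b, b + 4]` exactly when `z` is a point of the real
interval `[a, a + 4]`, then `a ∈ S` if and only if `b ∈ S`. -/
lemma transfer (f : ℤ[X]) (hf : 0 < f.natDegree) (hlc : IsUnit f.leadingCoeff) (a b : ℝ)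
    (h : ∀ z : ℂ, (z.im = 0 ∧ a ≤ z.re ∧ z.re ≤ a + 4) ↔
      ((aeval z f).im = 0 ∧ b ≤ (aeval z f).re ∧ (aeval z f).re ≤ b + 4)) :
    a ∈ S ↔ b ∈ S := by
  classical
  have hsurj : conjSets b ⊆ (fun s : Set ℂ => (fun z => aeval z f) '' s) '' conjSets a := by
    rintro t ⟨ht, htb⟩
    obtain ⟨β, hβ⟩ := nonempty_of_isConjugateSet ht
    obtain ⟨Q, hQmon, hQirr, hQreal, rfl⟩ := ht
    rw [Set.mem_ofPred_eq] at hβ
    obtain ⟨α, hα⟩ : ∃ α : ℂ, aeval α f = β := by
      have hdeg : (f.map (Int.castRingHom ℂ) - C β).degree ≠ 0 := by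
        have h1 : (f.map (Int.castRingHom ℂ)).natDegree = f.natDegree :=
          natDegree_map_eq_of_injective (RingHom.injective_int _) f
        have h2 : 0 < (f.map (Int.castRingHom ℂ)).degree := by
          rw [← natDegree_pos_iff_degree_pos, h1]; exact hf
        rw [degree_sub_C h2]
        exact h2.ne'
      obtain ⟨α, hα⟩ := IsAlgClosed.exists_root _ hdeg
      refine ⟨α, ?_⟩
      rw [IsRoot.def, eval_sub, eval_C, eval_map, sub_eq_zero] at hα
      rw [aeval_def, ← hα]
      congr 1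
    have hint : IsIntegral ℤ α := by
      obtain ⟨u, hu⟩ := hlc
      have hlead : (Q.comp f).leadingCoeff = (u : ℤ) ^ Q.natDegree := by
        rw [leadingCoeff_comp hf.ne', hQmon.leadingCoeff, one_mul, ← hu]
      refine ⟨C (((u ^ Q.natDegree)⁻¹ : ℤˣ) : ℤ) * Q.comp f, ?_, ?_⟩
      · rw [Monic, leadingCoeff_mul, leadingCoeff_C, hlead, ← Units.val_pow_eq_pow_val,
          ← Units.val_mul, inv_mul_cancel, Units.val_one]
      · rw [← aeval_def, map_mul, aeval_comp, hα, hβ, mul_zero]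
    have hmon := minpoly.monic hint
    have hirr := minpoly.irreducible hint
    have hα0 : aeval α (minpoly ℤ α) = 0 := minpoly.aeval ℤ α
    have hdvd : minpoly ℤ α ∣ Q.comp f := by
      apply minpoly_dvd hmon hirr hα0
      rw [aeval_comp, hα, hβ]
    have hzero : ∀ z : ℂ, aeval z (minpoly ℤ α) = 0 → aeval (aeval z f) Q = 0 := by
      intro z hz
      obtain ⟨g, hg⟩ := hdvd
      rw [← aeval_comp, hg, map_mul, hz, zero_mul]
    refine ⟨{z : ℂ | aeval z (minpoly ℤ α) = 0}, ⟨⟨minpoly ℤ α, hmon, hirr, ?_, rfl⟩, ?_⟩, ?_⟩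
    · intro z hz
      exact ((h z).mpr ⟨hQreal _ (hzero z hz), htb _ (hzero z hz)⟩).1
    · intro z hz
      exact ((h z).mpr ⟨hQreal _ (hzero z hz), htb _ (hzero z hz)⟩).2
    · ext w
      constructor
      · rintro ⟨z, hz, rfl⟩
        exact hzero z hz
      · intro hw
        obtain ⟨z, hz, hzw⟩ := exists_conj hmon hirr hα0 hQmon hQirr (by rw [hα]; exact hβ) hw
        exact ⟨z, hz, hzw⟩
  have hmap : ∀ s ∈ conjSets a, (fun z => aeval z f) '' s ∈ conjSets b := by
    rintro s ⟨hs, hsa⟩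
    obtain ⟨α, hα⟩ := nonempty_of_isConjugateSet hs
    obtain ⟨P, hmon, hirr, hreal, rfl⟩ := hs
    rw [Set.mem_ofPred_eq] at hα
    have hintα : IsIntegral ℤ α := ⟨P, hmon, by rw [← hα, aeval_def]⟩
    have hint : IsIntegral ℤ (aeval α f) :=
      IsIntegral.of_mem_of_fg (Algebra.adjoin ℤ {α}) hintα.fg_adjoin_singleton _
        (aeval_mem_adjoin_singleton ℤ _)
    have hQmon := minpoly.monic hint
    have hQirr := minpoly.irreducible hint
    have hQ0 : aeval (aeval α f) (minpoly ℤ (aeval α f)) = 0 := minpoly.aeval ℤ _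
    have hset : (fun z => aeval z f) '' {z : ℂ | aeval z P = 0} =
        {w : ℂ | aeval w (minpoly ℤ (aeval α f)) = 0} := by
      ext w
      constructor
      · rintro ⟨z, hz, rfl⟩
        have hdvd : P ∣ (minpoly ℤ (aeval α f)).comp f := by
          apply minpoly_dvd hmon hirr hα
          rw [aeval_comp, hQ0]
        obtain ⟨g, hg⟩ := hdvd
        rw [Set.mem_ofPred_eq] at hz ⊢
        rw [← aeval_comp, hg, map_mul, hz, zero_mul]
      · intro hw
        obtain ⟨z, hz, hzw⟩ := exists_conj hmon hirr hα hQmon hQirr hQ0 hw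
        exact ⟨z, hz, hzw⟩
    have hin : ∀ w ∈ (fun z => aeval z f) '' {z : ℂ | aeval z P = 0},
        w.im = 0 ∧ b ≤ w.re ∧ w.re ≤ b + 4 := by
      rintro w ⟨z, hz, rfl⟩
      exact (h z).mp ⟨hreal z hz, hsa z hz⟩
    refine ⟨⟨minpoly ℤ (aeval α f), hQmon, hQirr, ?_, hset⟩, fun w hw => (hin w hw).2⟩
    intro w hw
    apply (hin w _).1
    rw [hset]
    exact hw
  constructor
  · intro ha hb
    apply ha
    have hun : (⋃ t ∈ conjSets b, {s : Set ℂ | s ⊆ {z : ℂ | aeval z f ∈ t}}).Finite := by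
      apply Set.Finite.biUnion hb
      intro t ht
      apply Set.Finite.finite_subsets
      have htfin := finite_of_isConjugateSet ht.1
      have hsub : {z : ℂ | aeval z f ∈ t} ⊆
          ⋃ β ∈ t, (((f.map (Int.castRingHom ℂ)) - C β).roots.toFinset : Set ℂ) := by
        intro z hz
        rw [Set.mem_ofPred_eq] at hz
        rw [Set.mem_iUnion₂]
        refine ⟨aeval z f, hz, ?_⟩
        have h1 : (f.map (Int.castRingHom ℂ)).natDegree = f.natDegree :=
          natDegree_map_eq_of_injective (RingHom.injective_int _) f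
        have h2 : 0 < (f.map (Int.castRingHom ℂ)).degree := by
          rw [← natDegree_pos_iff_degree_pos, h1]; exact hf
        have h3 : (f.map (Int.castRingHom ℂ)) - C (aeval z f) ≠ 0 := by
          intro h0
          have h4 := degree_sub_C (p := f.map (Int.castRingHom ℂ)) (a := aeval z f) h2
          rw [h0, degree_zero] at h4
          rw [← h4] at h2
          exact absurd h2 (by simp)
        rw [Finset.mem_coe, Multiset.mem_toFinset, mem_roots h3, IsRoot.def, eval_sub, eval_C,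
          eval_map, sub_eq_zero, aeval_def]
        congr 1
      exact (Set.Finite.biUnion htfin (fun _ _ => Finset.finite_toSet _)).subset hsub
    apply hun.subset
    intro s hs
    rw [Set.mem_iUnion₂]
    exact ⟨_, hmap s hs, fun z hz => ⟨z, hz, rfl⟩⟩
  · intro hb ha
    exact hb ((ha.image _).subset hsurj)

/-- Translation by integers. -/
lemma translate (a : ℝ) (k : ℤ) : a ∈ S ↔ a + k ∈ S := by
  apply transfer (X + C k) (by rw [natDegree_X_add_C]; exact one_pos)
    (by rw [(monic_X_add_C k).leadingCoeff]; exact isUnit_one)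
  intro z
  have h1 : aeval z (X + C k : ℤ[X]) = z + (k : ℂ) := by
    rw [map_add, aeval_X, aeval_C]; rfl
  rw [h1, Complex.add_im, Complex.add_re, Complex.intCast_im, Complex.intCast_re, add_zero]
  constructor
  · rintro ⟨h2, h3, h4⟩; exact ⟨h2, by linarith, by linarith⟩
  · rintro ⟨h2, h3, h4⟩; exact ⟨h2, by linarith, by linarith⟩

/-- Reflection. -/
lemma reflect (a : ℝ) : a ∈ S ↔ -a - 4 ∈ S := by
  have hdeg : (-X : ℤ[X]).natDegree = 1 := by rw [natDegree_neg, natDegree_X]
  apply transfer (-X) (by rw [hdeg]; exact one_pos)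
    (by rw [leadingCoeff_neg, leadingCoeff_X]; exact isUnit_one.neg)
  intro z
  have h1 : aeval z (-X : ℤ[X]) = -z := by rw [map_neg, aeval_X]
  rw [h1, Complex.neg_im, Complex.neg_re]
  constructor
  · rintro ⟨h2, h3, h4⟩; exact ⟨by linarith, by linarith, by linarith⟩
  · rintro ⟨h2, h3, h4⟩; exact ⟨by linarith, by linarith, by linarith⟩

/-- The quadratic map `x ^ 2 - 5 x + 7` folds `[1/2, 9/2]` twice over `[3/4, 19/4]`. -/
lemma fold : (1 / 2 : ℝ) ∈ S ↔ (3 / 4 : ℝ) ∈ S := by
  have hmon : (X ^ 2 - C 5 * X + C 7 : ℤ[X]).Monic := by monicity!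
  have hdeg : (X ^ 2 - C 5 * X + C 7 : ℤ[X]).natDegree = 2 := by compute_degree!
  apply transfer (X ^ 2 - C 5 * X + C 7) (by rw [hdeg]; exact two_pos)
    (by rw [hmon.leadingCoeff]; exact isUnit_one)
  intro z
  have h1 : aeval z (X ^ 2 - C 5 * X + C 7 : ℤ[X]) = z ^ 2 - 5 * z + 7 := by
    rw [map_add, map_sub, map_mul, map_pow, aeval_X, aeval_C, aeval_C]
    simp
  have him : (z ^ 2 - 5 * z + 7 : ℂ).im = (2 * z.re - 5) * z.im := by
    simp [sq, Complex.mul_im]; ring
  have hre : (z ^ 2 - 5 * z + 7 : ℂ).re = (z.re - 5 / 2) ^ 2 + 3 / 4 - z.im ^ 2 := by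
    simp [sq, Complex.mul_re]; ring
  rw [h1, him, hre]
  constructor
  · rintro ⟨h2, h3, h4⟩
    rw [h2]
    refine ⟨by ring, by nlinarith [sq_nonneg (z.re - 5 / 2)], by nlinarith⟩
  · rintro ⟨h2, h3, h4⟩
    rcases mul_eq_zero.mp h2 with h5 | h5
    · have h6 : z.re = 5 / 2 := by linarith
      rw [h6] at h3 h4 ⊢
      have h7 : z.im ^ 2 ≤ 0 := by nlinarith
      have h8 : z.im = 0 := by
        have := sq_nonneg z.im
        exact pow_eq_zero_iff (two_ne_zero) |>.mp (le_antisymm h7 this)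
      exact ⟨h8, by norm_num, by norm_num⟩
    · rw [h5] at h3 h4
      refine ⟨h5, by nlinarith, by nlinarith⟩

/-- The numbers congruent to `1/2`, `1/4` or `3/4` modulo `1` behave alike. -/
theorem result : ∀ k l : ℤ, (((k : ℝ) + 1 / 2 ∈ S) ↔ ((l : ℝ) + 1 / 4 ∈ S)) ∧
    (((k : ℝ) + 1 / 2 ∈ S) ↔ ((l : ℝ) + 3 / 4 ∈ S)) := by
  intro k l
  have h1 : ((k : ℝ) + 1 / 2 ∈ S) ↔ ((1 / 2 : ℝ) ∈ S) := by
    rw [add_comm]; exact (translate (1 / 2) k).symm
  have h2 : ((l : ℝ) + 3 / 4 ∈ S) ↔ ((3 / 4 : ℝ) ∈ S) := by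
    rw [add_comm]; exact (translate (3 / 4) l).symm
  have h3 : ((l : ℝ) + 1 / 4 ∈ S) ↔ ((3 / 4 : ℝ) ∈ S) := by
    rw [reflect, translate (-((l : ℝ) + 1 / 4) - 4) (l + 5)]
    have : -((l : ℝ) + 1 / 4) - 4 + ((l + 5 : ℤ) : ℝ) = 3 / 4 := by push_cast; ring
    rw [this]
  rw [h1, h2, h3]
  exact ⟨fold, fold⟩

end Pool.Agent.Results.MP_f0992b_nt.QuarterPoints
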